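import Mathlib
import Pool.Agent.R870.RC.Defs

set_option autoImplicit false

/-! # Random pairs of log general type: definitions -/

namespace Pool.Agent.R870.RC

open MvPolynomial

/-- `t` is an `S`-unit: it is not zero and all its prime factors are in `S` -/
def SUnit (S : Finset ℕ) (t : ℤ) : Prop := t ≠ 0 ∧ ∀ p : ℕ, p.Prime → (p : ℤ) ∣ t → p ∈ S

/-- the systems `(F_1, …, F_s)` of forms of degrees `d_i` with integer coefficients of absolute value
at most `H` for which `V ∖ D` has an `S`-integral point of height at most `B`, where `V` is the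
subscheme of projective `n`-space with the equations `F_i = 0`, `i ∈ C`, and `D` is the union of the
hypersurfaces `F_i = 0`, `i ∉ C`: a point with coprime integral coordinates `x`, `|x_j| ≤ B`, such
that `F_i (x) = 0` for `i ∈ C` and `F_i (x)` is an `S`-unit for `i ∉ C` -/
def IntPoint (n : ℕ) {s : ℕ} (d : Fin s → ℕ) (C : Finset (Fin s)) (S : Finset ℕ) (H B : ℕ) :
    Set (Fin s → MvPolynomial (Fin (n + 1)) ℤ) :=
  {F | F ∈ Systems n d H ∧ ∃ x : Fin (n + 1) → ℤ, (∃ a : Fin (n + 1) → ℤ, ∑ j, a j * x j = 1) ∧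
    (∀ j, |x j| ≤ B) ∧ (∀ i ∈ C, eval x (F i) = 0) ∧ ∀ i ∉ C, SUnit S (eval x (F i))}

end Pool.Agent.R870.RC
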