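import Mathlib
import Pool.Agent.R870.RP.Defs

set_option autoImplicit false

/-! # The number of `S`-units of bounded size -/

namespace Pool.Agent.R870.RC

open Finset

/-- the `S`-units of absolute value at most `T` -/
noncomputable def UU (S : Finset ℕ) (T : ℕ) : Finset ℤ := by
  classical
  exact (Finset.Icc (-(T : ℤ)) T).filter (SUnit S)

theorem mem_UU {S : Finset ℕ} {T : ℕ} {t : ℤ} : t ∈ UU S T ↔ |t| ≤ T ∧ SUnit S t := by
  classical
  unfold UU
  rw [Finset.mem_filter, Finset.mem_Icc, ← abs_le]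

theorem factorization_le_log (m p : ℕ) (hm : m ≠ 0) : m.factorization p ≤ Nat.log 2 m := by
  by_cases hp : p.Prime
  · have h1 : p ^ m.factorization p ≤ m := Nat.ordProj_le p hm
    have h2 : 2 ^ m.factorization p ≤ m :=
      (Nat.pow_le_pow_left hp.two_le _).trans h1
    exact (Nat.le_log_iff_pow_le (by norm_num) hm).2 h2
  · rw [Nat.factorization_eq_zero_of_not_prime _ hp]
    exact Nat.zero_le _

theorem card_UU_le (S : Finset ℕ) (T : ℕ) : (UU S T).card ≤ 2 * (Nat.log 2 T + 1) ^ S.card := by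
  classical
  have h1 : (UU S T).card ≤ ((Finset.univ : Finset Bool) ×ˢ
      (Fintype.piFinset fun _ : S => Finset.range (Nat.log 2 T + 1))).card := by
    refine Finset.card_le_card_of_injOn
      (fun t => (decide (0 ≤ t), fun p : S => t.natAbs.factorization p)) ?_ ?_
    · intro t ht
      rw [Finset.mem_coe, mem_UU] at ht
      rw [Finset.mem_coe, Finset.mem_product]
      refine ⟨Finset.mem_univ _, ?_⟩
      rw [Fintype.mem_piFinset]
      intro p
      rw [Finset.mem_range]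
      have h0 : t.natAbs ≠ 0 := Int.natAbs_ne_zero.2 ht.2.1
      have h2 := factorization_le_log t.natAbs p h0
      have h3 : t.natAbs ≤ T := by
        have h4 := ht.1
        rw [← Int.natCast_natAbs] at h4
        exact_mod_cast h4
      have h4 : Nat.log 2 t.natAbs ≤ Nat.log 2 T := Nat.log_mono_right h3
      show t.natAbs.factorization p < Nat.log 2 T + 1
      omega
    · intro t ht t' ht' h
      rw [Finset.mem_coe, mem_UU] at ht ht'
      have h1 : decide (0 ≤ t) = decide (0 ≤ t') := congrArg Prod.fst h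
      have h2 := congrArg Prod.snd h
      have h3 : ∀ p ∈ S, t.natAbs.factorization p = t'.natAbs.factorization p := fun p hp =>
        congrFun h2 ⟨p, hp⟩
      have h0 : t.natAbs ≠ 0 := Int.natAbs_ne_zero.2 ht.2.1
      have h0' : t'.natAbs ≠ 0 := Int.natAbs_ne_zero.2 ht'.2.1
      have hz : ∀ u : ℤ, SUnit S u → ∀ p ∉ S, u.natAbs.factorization p = 0 := by
        intro u hu p hp
        by_cases hpp : p.Prime
        · refine Nat.factorization_eq_zero_of_not_dvd fun hd => hp (hu.2 p hpp ?_)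
          exact Int.natCast_dvd.2 hd
        · exact Nat.factorization_eq_zero_of_not_prime _ hpp
      have h4 : t.natAbs = t'.natAbs := by
        refine Nat.eq_of_factorization_eq h0 h0' fun p => ?_
        by_cases hp : p ∈ S
        · exact h3 p hp
        · rw [hz t ht.2 p hp, hz t' ht'.2 p hp]
      rw [decide_eq_decide] at h1
      omega
  rw [Finset.card_product, Fintype.card_piFinset, Finset.prod_const, Finset.card_range,
    Finset.card_univ, Finset.card_univ, Fintype.card_coe] at h1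
  exact h1

/-- a lower bound -/
theorem card_UU_ge (S : Finset ℕ) (hS : ∀ p ∈ S, p.Prime) : ∃ c : ℝ, 0 < c ∧ ∀ H : ℕ, 1 ≤ H →
    c * (1 + Real.log H) ^ S.card ≤ ((UU S H).card : ℝ) := by
  classical
  rcases S.eq_empty_or_nonempty with hS0 | hS0
  · subst hS0
    refine ⟨1, one_pos, fun H hH => ?_⟩
    rw [Finset.card_empty, pow_zero, mul_one]
    have h1 : (1 : ℤ) ∈ UU ∅ H := by
      rw [mem_UU]
      refine ⟨by rw [abs_one]; exact_mod_cast hH, one_ne_zero, fun p hp hd => ?_⟩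
      have h2 := Int.natCast_dvd.1 hd
      exact absurd (Nat.dvd_one.1 (by simpa using h2)) hp.one_lt.ne'
    have h2 : 1 ≤ (UU ∅ H).card := Finset.card_pos.2 ⟨1, h1⟩
    exact_mod_cast h2
  · set q : ℕ := S.card with hq
    have hq1 : 1 ≤ q := Finset.card_pos.2 hS0
    set P : ℕ := ∏ p ∈ S, p with hP
    have hpP : ∀ p ∈ S, p ≤ P := fun p hp =>
      Nat.le_of_dvd (Finset.prod_pos fun p hp => (hS p hp).pos) (Finset.dvd_prod_of_mem _ hp)
    have hP2 : 2 ≤ P := by
      obtain ⟨p, hp⟩ := hS0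
      exact (hS p hp).two_le.trans (hpP p hp)
    have hPr : (2 : ℝ) ≤ P := by exact_mod_cast hP2
    have hlP : 0 < Real.log P := Real.log_pos (by linarith)
    have hqr : (1 : ℝ) ≤ q := by exact_mod_cast hq1
    have hden : (0 : ℝ) < 1 + q * Real.log P := by positivity
    refine ⟨(1 / (1 + q * Real.log P)) ^ q, by positivity, fun H hH => ?_⟩
    have hH0 : H ≠ 0 := by omega
    have hHr : (1 : ℝ) ≤ H := by exact_mod_cast hH
    set m : ℕ := Nat.log P H / q with hm
    have h1 : (Fintype.piFinset fun _ : S => Finset.range (m + 1)).card ≤ (UU S H).card := by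
      refine Finset.card_le_card_of_injOn
        (fun a => ((∏ p : S, (p : ℕ) ^ a p : ℕ) : ℤ)) ?_ ?_
      · intro a ha
        rw [Finset.mem_coe, Fintype.mem_piFinset] at ha
        rw [Finset.mem_coe, mem_UU]
        show |((∏ p : S, (p : ℕ) ^ a p : ℕ) : ℤ)| ≤ H ∧ SUnit S ((∏ p : S, (p : ℕ) ^ a p : ℕ) : ℤ)
        refine ⟨?_, ?_, ?_⟩
        · rw [Nat.abs_cast]
          have h2 : ∏ p : S, (p : ℕ) ^ a p ≤ P ^ (q * m) := by
            have h3 : ∀ p ∈ (Finset.univ : Finset S), (p : ℕ) ^ a p ≤ P ^ m := by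
              intro p _
              have h4 := Finset.mem_range.1 (ha p)
              exact (Nat.pow_le_pow_left (hpP p p.2) _).trans
                (Nat.pow_le_pow_right (by omega) (by omega))
            refine (Finset.prod_le_prod' h3).trans ?_
            rw [Finset.prod_const, Finset.card_univ, Fintype.card_coe, ← pow_mul, mul_comm]
          have h3 : P ^ (q * m) ≤ H := by
            refine Nat.pow_le_of_le_log hH0 ?_
            rw [hm, mul_comm]
            exact Nat.div_mul_le_self _ _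
          exact_mod_cast h2.trans h3
        · have h2 : 0 < ∏ p : S, (p : ℕ) ^ a p :=
            Finset.prod_pos fun p _ => pow_pos (hS p p.2).pos _
          exact_mod_cast h2.ne'
        · intro r hr hd
          have h2 : r ∣ ∏ p : S, (p : ℕ) ^ a p := by exact_mod_cast hd
          obtain ⟨p, -, hp⟩ := (hr.prime.dvd_finsetProd_iff _).1 h2
          have h3 : r ∣ (p : ℕ) := hr.dvd_of_dvd_pow hp
          rw [(Nat.prime_dvd_prime_iff_eq hr (hS p p.2)).1 h3]
          exact p.2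
      · intro a _ a' _ h
        have h : ((∏ p : S, (p : ℕ) ^ a p : ℕ) : ℤ) = ((∏ p : S, (p : ℕ) ^ a' p : ℕ) : ℤ) := h
        have h2 : ∏ p : S, (p : ℕ) ^ a p = ∏ p : S, (p : ℕ) ^ a' p := by exact_mod_cast h
        funext p
        have key : ∀ a : S → ℕ, (∏ p : S, (p : ℕ) ^ a p).factorization (p : ℕ) = a p := by
          intro a
          rw [Nat.factorization_prod (fun (r : S) _ => pow_ne_zero _ (hS r r.2).ne_zero),
            Finsupp.finsetSum_apply, Finset.sum_eq_single p]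
          · rw [(hS p p.2).factorization_pow, Finsupp.single_eq_same]
          · intro r _ hr
            rw [(hS r r.2).factorization_pow, Finsupp.single_eq_of_ne]
            intro h3
            exact hr (Subtype.ext h3.symm)
          · intro h3
            exact absurd (Finset.mem_univ p) h3
        rw [← key a, ← key a', h2]
    rw [Fintype.card_piFinset, Finset.prod_const, Finset.card_range, Finset.card_univ,
      Fintype.card_coe] at h1
    have h2 : (((m + 1) ^ q : ℕ) : ℝ) ≤ ((UU S H).card : ℝ) := by exact_mod_cast h1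
    refine le_trans ?_ h2
    rw [← mul_pow, Nat.cast_pow]
    have hlH : 0 ≤ Real.log H := Real.log_nonneg hHr
    refine pow_le_pow_left₀ (by positivity) ?_ q
    rw [one_div, inv_mul_le_iff₀ hden]
    push_cast
    -- `1 + log H ≤ (1 + q log P) (m + 1)`
    have h3 : Nat.log P H + 1 ≤ q * (m + 1) := by
      have h4 := Nat.div_add_mod (Nat.log P H) q
      have h5 := Nat.mod_lt (Nat.log P H) (by omega : 0 < q)
      rw [← hm] at h4
      rw [mul_add, mul_one]
      omega
    have h4 : Real.log H ≤ ((Nat.log P H + 1 : ℕ) : ℝ) * Real.log P := by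
      rw [← Real.log_pow]
      refine Real.log_le_log (by linarith) ?_
      have h5 : H < P ^ (Nat.log P H + 1) := Nat.lt_pow_succ_log_self (by omega) H
      have h6 : (H : ℝ) < ((P ^ (Nat.log P H + 1) : ℕ) : ℝ) := by exact_mod_cast h5
      rw [Nat.cast_pow] at h6
      exact h6.le
    have h5 : ((Nat.log P H + 1 : ℕ) : ℝ) ≤ q * ((m : ℝ) + 1) := by exact_mod_cast h3
    have h6 : ((Nat.log P H + 1 : ℕ) : ℝ) * Real.log P ≤ q * ((m : ℝ) + 1) * Real.log P :=
      mul_le_mul_of_nonneg_right h5 hlP.le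
    have h7 : (0 : ℝ) ≤ m := Nat.cast_nonneg m
    nlinarith

/-- an upper bound in terms of logarithms -/
theorem card_UU_log (S : Finset ℕ) (N d : ℕ) (hN : 1 ≤ N) : ∃ K : ℝ, 0 ≤ K ∧ ∀ H b : ℕ, 1 ≤ H →
    1 ≤ b → ((UU S (N * H * b ^ d)).card : ℝ) ≤
      K * ((1 + Real.log H) ^ S.card * (1 + Real.log b) ^ S.card) := by
  have hl2 : 0 < Real.log 2 := Real.log_pos (by norm_num)
  have hNr : (1 : ℝ) ≤ N := by exact_mod_cast hN
  have hlN : 0 ≤ Real.log N := Real.log_nonneg hNr
  set K0 : ℝ := 1 + (Real.log N + 1 + d) / Real.log 2 with hK0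
  have hK00 : 0 ≤ K0 := by positivity
  refine ⟨2 * K0 ^ S.card, by positivity, fun H b hH hb => ?_⟩
  have hHr : (1 : ℝ) ≤ H := by exact_mod_cast hH
  have hbr : (1 : ℝ) ≤ b := by exact_mod_cast hb
  have hlH : 0 ≤ Real.log H := Real.log_nonneg hHr
  have hlb : 0 ≤ Real.log b := Real.log_nonneg hbr
  have h1 : ((UU S (N * H * b ^ d)).card : ℝ) ≤
      2 * ((Nat.log 2 (N * H * b ^ d) : ℝ) + 1) ^ S.card := by
    exact_mod_cast card_UU_le S (N * H * b ^ d)
  refine h1.trans ?_
  have hre : 2 * K0 ^ S.card * ((1 + Real.log H) ^ S.card * (1 + Real.log b) ^ S.card) =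
      2 * (K0 * ((1 + Real.log H) * (1 + Real.log b))) ^ S.card := by
    rw [mul_pow, mul_pow]
    ring
  rw [hre]
  refine mul_le_mul_of_nonneg_left (pow_le_pow_left₀ (by positivity) ?_ _) (by norm_num)
  have hT : N * H * b ^ d ≠ 0 := by positivity
  have h2 : (Nat.log 2 (N * H * b ^ d) : ℝ) ≤ (Real.log N + Real.log H + d * Real.log b) /
      Real.log 2 := by
    rw [le_div_iff₀ hl2, ← Real.log_pow]
    have h3 : 2 ^ Nat.log 2 (N * H * b ^ d) ≤ N * H * b ^ d := Nat.pow_log_le_self 2 hT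
    have h4 : (2 : ℝ) ^ Nat.log 2 (N * H * b ^ d) ≤ N * H * (b : ℝ) ^ d := by exact_mod_cast h3
    have h5 : Real.log (N * H * (b : ℝ) ^ d) = Real.log N + Real.log H + d * Real.log b := by
      rw [Real.log_mul (by positivity) (by positivity), Real.log_mul (by positivity) (by positivity),
        Real.log_pow]
    rw [← h5]
    exact Real.log_le_log (by positivity) h4
  have h6 : (Real.log N + Real.log H + d * Real.log b) ≤
      (Real.log N + 1 + d) * ((1 + Real.log H) * (1 + Real.log b)) := by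
    have hd : (0 : ℝ) ≤ d := Nat.cast_nonneg d
    nlinarith [mul_nonneg hlH hlb, mul_nonneg hlN hlH, mul_nonneg hlN hlb, mul_nonneg hd hlH,
      mul_nonneg hd hlb, mul_nonneg hlN (mul_nonneg hlH hlb), mul_nonneg hd (mul_nonneg hlH hlb)]
  have h7 : (Real.log N + Real.log H + d * Real.log b) / Real.log 2 ≤
      (Real.log N + 1 + d) / Real.log 2 * ((1 + Real.log H) * (1 + Real.log b)) := by
    rw [div_mul_eq_mul_div]
    exact div_le_div_of_nonneg_right h6 hl2.le
  have h8 : 1 ≤ (1 + Real.log H) * (1 + Real.log b) := by nlinarith [mul_nonneg hlH hlb]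
  rw [hK0, add_mul, one_mul]
  linarith

/-- a sum over the points -/
theorem sum_log (n D Q : ℕ) (hD : n + 2 ≤ D) : ∃ K : ℝ, 0 ≤ K ∧ ∀ H B : ℕ, 1 ≤ H → 1 ≤ B →
    ∑ b ∈ Finset.Icc 1 B, (2 * (3 * b) ^ n : ℝ) *
      ((1 + Real.log b) ^ Q / ((min b H : ℕ) : ℝ) ^ D) ≤
      K * (1 + (B : ℝ) ^ (n + 1) * (1 + Real.log B) ^ Q / (H : ℝ) ^ D) := by
  -- the logarithms are bounded by a small power
  obtain ⟨K1, hK1, hlog⟩ : ∃ K1 : ℝ, 0 ≤ K1 ∧ ∀ b : ℕ, 1 ≤ b →
      (1 + Real.log b) ^ Q ≤ K1 * (b : ℝ) ^ ((1 : ℝ) / 2) := by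
    rcases Nat.eq_zero_or_pos Q with hQ | hQ
    · refine ⟨1, zero_le_one, fun b hb => ?_⟩
      rw [hQ, pow_zero, one_mul]
      exact Real.one_le_rpow (by exact_mod_cast hb) (by norm_num)
    · have hQr : (1 : ℝ) ≤ Q := by exact_mod_cast hQ
      refine ⟨(1 + 2 * Q) ^ Q, by positivity, fun b hb => ?_⟩
      have hbr : (1 : ℝ) ≤ b := by exact_mod_cast hb
      have h1 : Real.log b ≤ 2 * Q * (b : ℝ) ^ ((1 : ℝ) / (2 * Q)) := by
        have h2 := Real.log_le_rpow_div (x := (b : ℝ)) (ε := (1 : ℝ) / (2 * Q)) (by linarith)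
          (by positivity)
        refine h2.trans (le_of_eq ?_)
        field_simp
      have h3 : 1 ≤ (b : ℝ) ^ ((1 : ℝ) / (2 * Q)) := Real.one_le_rpow hbr (by positivity)
      have h4 : 1 + Real.log b ≤ (1 + 2 * Q) * (b : ℝ) ^ ((1 : ℝ) / (2 * Q)) := by
        rw [add_mul, one_mul]
        linarith
      have h0 : 0 ≤ 1 + Real.log b := by
        have := Real.log_nonneg hbr
        linarith
      refine (pow_le_pow_left₀ h0 h4 Q).trans (le_of_eq ?_)
      rw [mul_pow, ← Real.rpow_natCast ((b : ℝ) ^ ((1 : ℝ) / (2 * Q))),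
        ← Real.rpow_mul (by linarith)]
      congr 2
      field_simp
  have hsum : Summable fun b : ℕ => ((b : ℝ) ^ ((3 : ℝ) / 2))⁻¹ :=
    Real.summable_nat_rpow_inv.2 (by norm_num)
  set T : ℝ := ∑' b : ℕ, ((b : ℝ) ^ ((3 : ℝ) / 2))⁻¹ with hT
  have hT0 : 0 ≤ T := tsum_nonneg fun b => by positivity
  refine ⟨2 * 3 ^ n * (K1 * T + 1), by positivity, fun H B hH hB => ?_⟩
  have hHr : (1 : ℝ) ≤ H := by exact_mod_cast hH
  have hBr : (1 : ℝ) ≤ B := by exact_mod_cast hB
  have hlB : 0 ≤ Real.log B := Real.log_nonneg hBr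
  have key : ∀ b ∈ Finset.Icc 1 B, (2 * (3 * b) ^ n : ℝ) *
      ((1 + Real.log b) ^ Q / ((min b H : ℕ) : ℝ) ^ D) ≤
      2 * 3 ^ n * (K1 * ((b : ℝ) ^ ((3 : ℝ) / 2))⁻¹ +
        (B : ℝ) ^ n * (1 + Real.log B) ^ Q / (H : ℝ) ^ D) := by
    intro b hb
    obtain ⟨hb1, hb2⟩ := Finset.mem_Icc.1 hb
    have hbr : (1 : ℝ) ≤ b := by exact_mod_cast hb1
    have hbB : (b : ℝ) ≤ B := by exact_mod_cast hb2
    have hlb : 0 ≤ Real.log b := Real.log_nonneg hbr
    have hlbB : Real.log b ≤ Real.log B := Real.log_le_log (by linarith) hbB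
    rcases le_total b H with h | h
    · rw [min_eq_left h]
      have h1 : (b : ℝ) ^ n * ((1 + Real.log b) ^ Q / (b : ℝ) ^ D) ≤
          K1 * ((b : ℝ) ^ ((3 : ℝ) / 2))⁻¹ := by
        have h2 : (b : ℝ) ^ (n + 2) ≤ (b : ℝ) ^ D := pow_le_pow_right₀ hbr hD
        have h3 : (1 + Real.log b) ^ Q / (b : ℝ) ^ D ≤
            K1 * (b : ℝ) ^ ((1 : ℝ) / 2) / (b : ℝ) ^ (n + 2) :=
          div_le_div₀ (by positivity) (hlog b hb1) (by positivity) h2
        refine (mul_le_mul_of_nonneg_left h3 (by positivity)).trans (le_of_eq ?_)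
        have h4 : (b : ℝ) ^ ((3 : ℝ) / 2) * (b : ℝ) ^ ((1 : ℝ) / 2) = (b : ℝ) ^ 2 := by
          rw [← Real.rpow_add (by linarith), ← Real.rpow_natCast]
          norm_num
        have h5 : (b : ℝ) ^ ((3 : ℝ) / 2) ≠ 0 := by positivity
        have h6 : (b : ℝ) ≠ 0 := by positivity
        rw [pow_add, ← h4]
        have h7 : (b : ℝ) ^ ((1 : ℝ) / 2) ≠ 0 := by positivity
        field_simp
      have h8 : 0 ≤ (B : ℝ) ^ n * (1 + Real.log B) ^ Q / (H : ℝ) ^ D := by positivity
      calc (2 * (3 * b) ^ n : ℝ) * ((1 + Real.log b) ^ Q / (b : ℝ) ^ D)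
          = 2 * 3 ^ n * ((b : ℝ) ^ n * ((1 + Real.log b) ^ Q / (b : ℝ) ^ D)) := by
            rw [mul_pow]; ring
        _ ≤ 2 * 3 ^ n * (K1 * ((b : ℝ) ^ ((3 : ℝ) / 2))⁻¹) :=
            mul_le_mul_of_nonneg_left h1 (by positivity)
        _ ≤ _ := mul_le_mul_of_nonneg_left (by linarith) (by positivity)
    · rw [min_eq_right h]
      have h1 : (b : ℝ) ^ n * ((1 + Real.log b) ^ Q / (H : ℝ) ^ D) ≤
          (B : ℝ) ^ n * (1 + Real.log B) ^ Q / (H : ℝ) ^ D := by
        rw [mul_div_assoc]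
        refine mul_le_mul (pow_le_pow_left₀ (by linarith) hbB n) ?_ (by positivity) (by positivity)
        exact div_le_div_of_nonneg_right (pow_le_pow_left₀ (by linarith) (by linarith) Q)
          (by positivity)
      have h8 : 0 ≤ K1 * ((b : ℝ) ^ ((3 : ℝ) / 2))⁻¹ := by positivity
      calc (2 * (3 * b) ^ n : ℝ) * ((1 + Real.log b) ^ Q / (H : ℝ) ^ D)
          = 2 * 3 ^ n * ((b : ℝ) ^ n * ((1 + Real.log b) ^ Q / (H : ℝ) ^ D)) := by
            rw [mul_pow]; ring
        _ ≤ 2 * 3 ^ n * ((B : ℝ) ^ n * (1 + Real.log B) ^ Q / (H : ℝ) ^ D) :=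
            mul_le_mul_of_nonneg_left h1 (by positivity)
        _ ≤ _ := mul_le_mul_of_nonneg_left (by linarith) (by positivity)
  refine (Finset.sum_le_sum key).trans ?_
  rw [← Finset.mul_sum, Finset.sum_add_distrib, ← Finset.mul_sum, Finset.sum_const, Nat.card_Icc,
    Nat.add_sub_cancel, nsmul_eq_mul]
  have h1 : ∑ b ∈ Finset.Icc 1 B, ((b : ℝ) ^ ((3 : ℝ) / 2))⁻¹ ≤ T :=
    Summable.sum_le_tsum _ (fun b _ => by positivity) hsum
  have h2 : K1 * ∑ b ∈ Finset.Icc 1 B, ((b : ℝ) ^ ((3 : ℝ) / 2))⁻¹ ≤ K1 * T :=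
    mul_le_mul_of_nonneg_left h1 hK1
  set R : ℝ := (B : ℝ) ^ (n + 1) * (1 + Real.log B) ^ Q / (H : ℝ) ^ D with hR
  have hR0 : 0 ≤ R := by positivity
  have h3 : (B : ℝ) * ((B : ℝ) ^ n * (1 + Real.log B) ^ Q / (H : ℝ) ^ D) = R := by
    rw [hR, pow_succ]
    ring
  rw [h3, mul_assoc (2 * 3 ^ n) (K1 * T + 1)]
  refine mul_le_mul_of_nonneg_left ?_ (by positivity)
  have h4 : 0 ≤ K1 * T := mul_nonneg hK1 hT0
  nlinarith [mul_nonneg h4 hR0]

end Pool.Agent.R870.RC
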