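import Mathlib
import Pool.Agent.R870.RP.Units
import Pool.Agent.R870.RC.Cov

set_option autoImplicit false

/-! # Random pairs of log general type -/

namespace Pool.Agent.R870.RC

open MvPolynomial Finset

variable {n : ℕ}

/-- the forms with the given kind of value at `x`: zero (`b = true`) or an `S`-unit -/
noncomputable def VF (n d H : ℕ) (S : Finset ℕ) (z : Bool) (x : Fin (n + 1) → ℤ) :
    Finset (MvPolynomial (Fin (n + 1)) ℤ) := by
  classical
  exact (FF n d H).filter
    (fun F => (z = true ∧ eval x F = 0) ∨ (z = false ∧ SUnit S (eval x F)))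

theorem mem_VF {d H : ℕ} {S : Finset ℕ} {z : Bool} {x : Fin (n + 1) → ℤ}
    {F : MvPolynomial (Fin (n + 1)) ℤ} : F ∈ VF n d H S z x ↔ F ∈ FF n d H ∧
      ((z = true ∧ eval x F = 0) ∨ (z = false ∧ SUnit S (eval x F))) := by
  classical
  unfold VF
  exact Finset.mem_filter

/-- the exponent of the logarithm -/
def ex (S : Finset ℕ) (z : Bool) : ℕ := if z = true then 0 else S.card

/-- the number of forms with the given kind of value -/
theorem card_VF (d : ℕ) (S : Finset ℕ) (z : Bool) : ∃ K : ℝ, 0 ≤ K ∧ ∀ H : ℕ, 1 ≤ H →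
    ∀ (x : Fin (n + 1) → ℤ) (i0 : Fin (n + 1)) (b : ℕ), Prim x i0 b →
      ((VF n d H S z x).card : ℝ) ≤ K * ((1 + Real.log H) ^ ex S z / H) *
        ((1 + Real.log b) ^ ex S z / ((min b H : ℕ) : ℝ) ^ d) * ((FF n d H).card : ℝ) := by
  classical
  cases z with
  | true =>
    refine ⟨cst n d, Nat.cast_nonneg _, fun H hH x i0 b hx => ?_⟩
    have hHr : (1 : ℝ) ≤ H := by exact_mod_cast hH
    have e1 : ex S true = 0 := rfl
    rw [e1, pow_zero, pow_zero]
    have hsub : VF n d H S true x ⊆ (FF n d H).filter (fun F => eval x F = 0) := by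
      intro F hF
      obtain ⟨h1, h2⟩ := mem_VF.1 hF
      rcases h2 with h2 | h2
      · exact Finset.mem_filter.2 ⟨h1, h2.2⟩
      · exact absurd h2.1 (by decide)
    have h1 : ((VF n d H S true x).card : ℝ) ≤
        (((FF n d H).filter (fun F => eval x F = 0)).card : ℝ) :=
      Nat.cast_le.2 (Finset.card_le_card hsub)
    refine h1.trans ((count_real d H hH x i0 b hx 0).trans (le_of_eq ?_))
    ring
  | false =>
    have hN1 : 1 ≤ (Mo n d).card := by
      rw [card_Mo]
      exact Nat.choose_pos (by omega)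
    obtain ⟨K, hK, hKb⟩ := card_UU_log S (Mo n d).card d hN1
    refine ⟨K * cst n d, mul_nonneg hK (Nat.cast_nonneg _), fun H hH x i0 b hx => ?_⟩
    have hHr : (1 : ℝ) ≤ H := by exact_mod_cast hH
    have hb1 : 1 ≤ b := hx.2.2.1
    have e1 : ex S false = S.card := rfl
    rw [e1]
    have hsub : VF n d H S false x ⊆ (UU S ((Mo n d).card * H * b ^ d)).biUnion
        fun t => (FF n d H).filter (fun F => eval x F = t) := by
      intro F hF
      obtain ⟨h1, h2⟩ := mem_VF.1 hF
      rcases h2 with h2 | h2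
      · exact absurd h2.1 (by decide)
      · rw [Finset.mem_biUnion]
        refine ⟨eval x F, mem_UU.2 ⟨?_, h2.2⟩, Finset.mem_filter.2 ⟨h1, rfl⟩⟩
        exact abs_eval_le ((mem_FF F).1 h1) x b hx.2.2.2
    have h1 : ((VF n d H S false x).card : ℝ) ≤ ∑ _t ∈ UU S ((Mo n d).card * H * b ^ d),
        (cst n d * (FF n d H).card / (H * ((min b H : ℕ) : ℝ) ^ d) : ℝ) := by
      refine (Nat.cast_le.2 ((Finset.card_le_card hsub).trans Finset.card_biUnion_le)).trans ?_
      rw [Nat.cast_sum]
      exact Finset.sum_le_sum fun t _ => count_real d H hH x i0 b hx t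
    refine h1.trans ?_
    rw [Finset.sum_const, nsmul_eq_mul]
    have hμ1 : (1 : ℝ) ≤ ((min b H : ℕ) : ℝ) := by
      have : 1 ≤ min b H := le_min hb1 hH
      exact_mod_cast this
    have hμ : (0 : ℝ) < ((min b H : ℕ) : ℝ) ^ d := pow_pos (by linarith) d
    have h3 : (0 : ℝ) ≤ cst n d * ((FF n d H).card : ℝ) / (H * ((min b H : ℕ) : ℝ) ^ d) :=
      div_nonneg (mul_nonneg (Nat.cast_nonneg _) (Nat.cast_nonneg _))
        (mul_nonneg (by linarith) hμ.le)
    refine (mul_le_mul_of_nonneg_right (hKb H b hH hb1) h3).trans (le_of_eq ?_)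
    ring

/-- the union over the points -/
noncomputable def bad2 (n : ℕ) {s : ℕ} (P : Fin s → (Fin (n + 1) → ℤ) →
    Finset (MvPolynomial (Fin (n + 1)) ℤ)) (B : ℕ) :
    Finset (Fin s → MvPolynomial (Fin (n + 1)) ℤ) := by
  classical
  exact (Finset.univ : Finset (Fin (n + 1))).biUnion fun i0 => (Finset.Icc 1 B).biUnion fun b =>
    ((Bx n i0 b).filter (fun x => Prim x i0 b)).biUnion fun x => Fintype.piFinset fun i => P i x

theorem card_bad2 {s : ℕ} (P : Fin s → (Fin (n + 1) → ℤ) →
    Finset (MvPolynomial (Fin (n + 1)) ℤ)) (B : ℕ) (A : ℝ) (φ : ℕ → ℝ)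
    (h0 : ∀ b ∈ Finset.Icc 1 B, 0 ≤ φ b * A)
    (hA : ∀ (x : Fin (n + 1) → ℤ) (i0 : Fin (n + 1)) (b : ℕ), Prim x i0 b →
      ∏ i, ((P i x).card : ℝ) ≤ φ b * A) :
    ((bad2 n P B).card : ℝ) ≤ (n + 1) * ((∑ b ∈ Finset.Icc 1 B, (2 * (3 * b) ^ n : ℝ) * φ b) * A) := by
  classical
  have h1 : ((bad2 n P B).card : ℝ) ≤ ∑ _i0 : Fin (n + 1), ∑ b ∈ Finset.Icc 1 B,
      (2 * (3 * b) ^ n : ℝ) * φ b * A := by
    unfold bad2
    have e1 := Finset.card_biUnion_le (s := (Finset.univ : Finset (Fin (n + 1))))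
      (t := fun i0 => (Finset.Icc 1 B).biUnion fun b =>
        ((Bx n i0 b).filter (fun x => Prim x i0 b)).biUnion fun x =>
          Fintype.piFinset fun i => P i x)
    refine (Nat.cast_le.2 e1).trans ?_
    rw [Nat.cast_sum]
    refine Finset.sum_le_sum fun i0 _ => ?_
    have e2 := Finset.card_biUnion_le (s := Finset.Icc 1 B)
      (t := fun b => ((Bx n i0 b).filter (fun x => Prim x i0 b)).biUnion fun x =>
          Fintype.piFinset fun i => P i x)
    refine (Nat.cast_le.2 e2).trans ?_
    rw [Nat.cast_sum]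
    refine Finset.sum_le_sum fun b hb => ?_
    obtain ⟨hb1, hb2⟩ := Finset.mem_Icc.1 hb
    have e3 := Finset.card_biUnion_le (s := (Bx n i0 b).filter (fun x => Prim x i0 b))
      (t := fun x => Fintype.piFinset fun i => P i x)
    refine (Nat.cast_le.2 e3).trans ?_
    rw [Nat.cast_sum]
    have e4 : ∀ x ∈ (Bx n i0 b).filter (fun x => Prim x i0 b),
        ((Fintype.piFinset fun i => P i x).card : ℝ) ≤ φ b * A := by
      intro x hx
      have hx := (Finset.mem_filter.1 hx).2
      rw [Fintype.card_piFinset, Nat.cast_prod]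
      exact hA x i0 b hx
    refine (Finset.sum_le_sum e4).trans ?_
    rw [Finset.sum_const, nsmul_eq_mul]
    have e5 : ((((Bx n i0 b).filter (fun x => Prim x i0 b)).card : ℕ) : ℝ) ≤ 2 * (3 * b) ^ n := by
      have e6 := (Finset.card_filter_le (Bx n i0 b) (fun x => Prim x i0 b)).trans
        (card_Bx i0 b hb1)
      exact_mod_cast e6
    rw [mul_assoc (2 * (3 * (b : ℝ)) ^ n)]
    exact mul_le_mul_of_nonneg_right e5 (h0 b hb)
  refine h1.trans (le_of_eq ?_)
  rw [Finset.sum_const, Finset.card_univ, Fintype.card_fin, nsmul_eq_mul, ← Finset.sum_mul]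
  push_cast
  ring

/-- the values at the unit vector -/
theorem low_VF (d : ℕ) (S : Finset ℕ) (hS : ∀ p ∈ S, p.Prime) (z : Bool) :
    ∃ c : ℝ, 0 < c ∧ ∀ H : ℕ, 1 ≤ H →
      c * ((1 + Real.log H) ^ ex S z / H) * ((FF n d H).card : ℝ) ≤
        ((VF n d H S z (e0 n)).card : ℝ) := by
  classical
  cases z with
  | true =>
    refine ⟨1 / 3, by norm_num, fun H hH => ?_⟩
    have hHr : (1 : ℝ) ≤ H := by exact_mod_cast hH
    have e1 : ex S true = 0 := rfl
    rw [e1, pow_zero]
    have h1 := low_one (n := n) d H hH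
    have hsub : (FF n d H).filter (fun F => eval (e0 n) F = 0) ⊆ VF n d H S true (e0 n) := by
      intro F hF
      obtain ⟨h1, h2⟩ := Finset.mem_filter.1 hF
      exact mem_VF.2 ⟨h1, Or.inl ⟨rfl, h2⟩⟩
    have h2 : (((FF n d H).filter (fun F => eval (e0 n) F = 0)).card : ℝ) ≤
        ((VF n d H S true (e0 n)).card : ℝ) := Nat.cast_le.2 (Finset.card_le_card hsub)
    refine le_trans (le_of_eq ?_) (h1.trans h2)
    ring
  | false =>
    obtain ⟨c, hc, hcb⟩ := card_UU_ge S hS
    refine ⟨c / 3, by positivity, fun H hH => ?_⟩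
    have hHr : (1 : ℝ) ≤ H := by exact_mod_cast hH
    have e1 : ex S false = S.card := rfl
    rw [e1]
    have h1 := low_one (n := n) d H hH
    have h2 := hcb H hH
    have h3 : (((FF n d H).filter (fun F => eval (e0 n) F = 0)) ×ˢ UU S H).card ≤
        (VF n d H S false (e0 n)).card := by
      refine Finset.card_le_card_of_injOn
        (fun p => p.1 + monomial (Finsupp.single 0 d) p.2) ?_ ?_
      · rintro ⟨F, t⟩ hp
        rw [Finset.mem_coe, Finset.mem_product, Finset.mem_filter, mem_FF, mem_UU] at hp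
        obtain ⟨⟨hF, hF0⟩, ht, hu⟩ := hp
        have hF : F ∈ Forms n d H := hF
        have hF0 : eval (e0 n) F = 0 := hF0
        have ht : |t| ≤ (H : ℤ) := ht
        have hu : SUnit S t := hu
        have hc0 : F.coeff (Finsupp.single 0 d) = 0 := by
          rw [← eval_unit F hF.1]
          exact hF0
        have hmon := forms_monomial (n := n) (d := d) (H := H) (Finsupp.single 0 d)
          (Finsupp.degree_single _ _) t ht
        rw [Finset.mem_coe, mem_VF, mem_FF]
        have hev : eval (e0 n) (F + monomial (Finsupp.single 0 d) t) = t := by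
          rw [map_add, hF0, zero_add, eval_unit _ hmon.1, coeff_monomial, if_pos rfl]
        refine ⟨⟨hF.1.add hmon.1, fun m => ?_⟩, Or.inr ⟨rfl, ?_⟩⟩
        · show |(F + monomial (Finsupp.single 0 d) t : MvPolynomial (Fin (n + 1)) ℤ).coeff m| ≤
            (H : ℤ)
          rw [coeff_add, coeff_monomial]
          by_cases h : Finsupp.single 0 d = m
          · rw [if_pos h, ← h, hc0, zero_add]
            exact ht
          · rw [if_neg h, add_zero]
            exact hF.2 m
        · show SUnit S (eval (e0 n) (F + monomial (Finsupp.single 0 d) t))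
          rw [hev]
          exact hu
      · rintro ⟨F, t⟩ hp ⟨F', t'⟩ hp' h
        rw [Finset.mem_coe, Finset.mem_product, Finset.mem_filter] at hp hp'
        have hF0 : eval (e0 n) F = 0 := hp.1.2
        have hF0' : eval (e0 n) F' = 0 := hp'.1.2
        have h : F + monomial (Finsupp.single 0 d) t = F' + monomial (Finsupp.single 0 d) t' := h
        have h2 := congrArg (eval (e0 n)) h
        have hm : ∀ t : ℤ, eval (e0 n) (monomial (Finsupp.single 0 d) t) = t := by
          intro t
          rw [eval_unit (d := d) _ (isHomogeneous_monomial _ (Finsupp.degree_single _ _)),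
            coeff_monomial, if_pos rfl]
        rw [map_add, map_add, hF0, hF0', hm, hm, zero_add, zero_add] at h2
        subst h2
        rw [add_right_cancel h]
    rw [Finset.card_product] at h3
    have h4 : ((((FF n d H).filter (fun F => eval (e0 n) F = 0)).card : ℕ) : ℝ) *
        ((UU S H).card : ℝ) ≤ ((VF n d H S false (e0 n)).card : ℝ) := by exact_mod_cast h3
    refine le_trans ?_ h4
    have h5 : (0 : ℝ) ≤ ((FF n d H).card : ℝ) / (3 * H) :=
      div_nonneg (Nat.cast_nonneg _) (by linarith)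
    have h6 : (0 : ℝ) ≤ ((UU S H).card : ℝ) := Nat.cast_nonneg _
    calc c / 3 * ((1 + Real.log H) ^ S.card / H) * ((FF n d H).card : ℝ)
        = ((FF n d H).card : ℝ) / (3 * H) * (c * (1 + Real.log H) ^ S.card) := by
          ring
      _ ≤ ((FF n d H).card : ℝ) / (3 * H) * ((UU S H).card : ℝ) :=
          mul_le_mul_of_nonneg_left h2 h5
      _ ≤ _ := mul_le_mul_of_nonneg_right h1 h6

end Pool.Agent.R870.RC
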